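import Pool.Agent.Results.MP_ff748e_nt.Reduction

set_option autoImplicit false

namespace Pool.Agent.Lib.MP_ff748e_nt_FE

open Finset ArithmeticFunction
open Pool.Agent.Results.MP_ff748e_nt.Reduction (Practical a counterexample_iff practical_one)

lemma le_sigma {n : ℕ} (hn : 0 < n) : n ≤ sigma 1 n := by
  rw [sigma_one_apply]
  exact Finset.single_le_sum (f := fun d => d) (fun _ _ => Nat.zero_le _)
    (Nat.mem_divisors_self n hn.ne')

lemma lt_sigma {n : ℕ} (hn : 1 < n) : n < sigma 1 n := by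
  rw [sigma_one_apply]
  have h1 : ({1, n} : Finset ℕ) ⊆ n.divisors := by
    intro d hd
    simp only [Finset.mem_insert, Finset.mem_singleton] at hd
    rcases hd with rfl | rfl
    · simp; omega
    · simp; omega
  have h2 : ∑ d ∈ ({1, n} : Finset ℕ), d ≤ ∑ d ∈ n.divisors, d :=
    Finset.sum_le_sum_of_subset h1
  rw [Finset.sum_pair (by omega)] at h2
  omega

lemma sigma_pow_le {p k y : ℕ} (hp : p.Prime) (hy : y < p) :
    sigma 1 (p ^ k) * y ≤ p ^ k * (y + 1) := by
  obtain ⟨q, rfl⟩ : ∃ q, p = q + 1 := ⟨p - 1, by have := hp.two_le; omega⟩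
  have hq : 0 < q := by have := hp.two_le; omega
  have h1 : sigma 1 ((q + 1) ^ k) * q + 1 = (q + 1) ^ (k + 1) := by
    rw [sigma_one_apply_prime_pow hp]
    exact geom_sum_mul_add q (k + 1)
  have h2 : sigma 1 ((q + 1) ^ k) * q ≤ (q + 1) ^ k * (q + 1) := by
    rw [← pow_succ]; omega
  have h3 : (q + 1) * y ≤ (y + 1) * q := by nlinarith
  apply Nat.le_of_mul_le_mul_right _ hq
  calc sigma 1 ((q + 1) ^ k) * y * q = (sigma 1 ((q + 1) ^ k) * q) * y := by ring
    _ ≤ ((q + 1) ^ k * (q + 1)) * y := Nat.mul_le_mul_right _ h2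
    _ = (q + 1) ^ k * ((q + 1) * y) := by ring
    _ ≤ (q + 1) ^ k * ((y + 1) * q) := Nat.mul_le_mul_left _ h3
    _ = (q + 1) ^ k * (y + 1) * q := by ring

lemma sigma_rough_le (y b : ℕ) : 0 < b → (∀ p : ℕ, p.Prime → p ∣ b → y < p) →
    sigma 1 b * y ^ b.primeFactors.card ≤ b * (y + 1) ^ b.primeFactors.card := by
  induction b using Nat.recOnPosPrimePosCoprime with
  | prime_pow p n hp hn =>
    intro _ h
    have hy : y < p := h p hp (dvd_pow_self p hn.ne')
    rw [Nat.primeFactors_prime_pow hn.ne' hp]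
    simpa using sigma_pow_le (k := n) hp hy
  | zero => intro h; omega
  | one => intro _ _; simp
  | coprime a b ha hb hab iha ihb =>
    intro _ h
    have h1 := iha (by omega) (fun p hp hd => h p hp (hd.mul_right b))
    have h2 := ihb (by omega) (fun p hp hd => h p hp (hd.mul_left a))
    rw [isMultiplicative_sigma.map_mul_of_coprime hab, hab.primeFactors_mul,
      Finset.card_union_of_disjoint hab.disjoint_primeFactors, pow_add, pow_add]
    calc sigma 1 a * sigma 1 b * (y ^ a.primeFactors.card * y ^ b.primeFactors.card)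
        = (sigma 1 a * y ^ a.primeFactors.card) * (sigma 1 b * y ^ b.primeFactors.card) := by ring
      _ ≤ (a * (y + 1) ^ a.primeFactors.card) * (b * (y + 1) ^ b.primeFactors.card) :=
          Nat.mul_le_mul h1 h2
      _ = a * b * ((y + 1) ^ a.primeFactors.card * (y + 1) ^ b.primeFactors.card) := by ring

lemma two_mul_pow {y K : ℕ} (h : 2 * K ≤ y) : (y + 1) ^ K < 2 * y ^ K := by
  have h1 := one_add_mul_le_pow (a := -(1 / ((y : ℝ) + 1))) (by
    have : 1 / ((y : ℝ) + 1) ≤ 1 := by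
      rw [div_le_one (by positivity)]; linarith [(Nat.cast_nonneg y : (0 : ℝ) ≤ y)]
    linarith) K
  have hy : (0 : ℝ) < (y : ℝ) + 1 := by positivity
  have h2 : (1 : ℝ) + -(1 / ((y : ℝ) + 1)) = y / (y + 1) := by field_simp; ring
  rw [h2, div_pow] at h1
  have h3 : (1 : ℝ) / 2 < 1 + (K : ℝ) * -(1 / ((y : ℝ) + 1)) := by
    have hK : 2 * (K : ℝ) ≤ y := by exact_mod_cast h
    have : (K : ℝ) * (1 / ((y : ℝ) + 1)) < 1 / 2 := by
      rw [mul_one_div, div_lt_iff₀ hy]; linarith
    linarith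
  have h4 : (1 : ℝ) / 2 < (y : ℝ) ^ K / ((y : ℝ) + 1) ^ K := lt_of_lt_of_le h3 h1
  rw [lt_div_iff₀ (by positivity)] at h4
  have h5 : ((y : ℝ) + 1) ^ K < 2 * (y : ℝ) ^ K := by linarith
  exact_mod_cast h5

lemma sigma_lt_two_mul {y b K : ℕ} (hb : 0 < b) (h : ∀ p : ℕ, p.Prime → p ∣ b → y < p)
    (hK : b.primeFactors.card ≤ K) (hKy : 2 * K ≤ y) : sigma 1 b < 2 * b := by
  have h1 := sigma_rough_le y b hb h
  have h2 := two_mul_pow (y := y) (K := b.primeFactors.card) (by omega)
  by_contra hcon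
  push Not at hcon
  have h3 : 2 * b * y ^ b.primeFactors.card ≤ b * (y + 1) ^ b.primeFactors.card :=
    le_trans (Nat.mul_le_mul_right _ hcon) h1
  have h4 : b * (y + 1) ^ b.primeFactors.card < b * (2 * y ^ b.primeFactors.card) :=
    Nat.mul_lt_mul_of_pos_left h2 hb
  have h5 : b * (2 * y ^ b.primeFactors.card) = 2 * b * y ^ b.primeFactors.card := by ring
  omega

lemma sum_pow_lt (K : ℕ) : ∑ e ∈ Finset.Icc 1 K, 2 ^ (K - e) < 2 ^ K := by
  induction K with
  | zero => simp
  | succ K ih =>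
    rw [Finset.sum_Icc_succ_top (by omega)]
    have h1 : ∑ e ∈ Finset.Icc 1 K, 2 ^ (K + 1 - e) = 2 * ∑ e ∈ Finset.Icc 1 K, 2 ^ (K - e) := by
      rw [Finset.mul_sum]
      refine Finset.sum_congr rfl fun e he => ?_
      rw [Finset.mem_Icc] at he
      rw [show K + 1 - e = (K - e) + 1 by omega, pow_succ]; ring
    rw [h1, pow_succ]
    simp
    omega

lemma primeFactors_card_le (b : ℕ) : b.primeFactors.card ≤ cardFactors b := by
  rw [cardFactors_apply, Nat.primeFactors]
  exact List.toFinset_card_le _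

/-- Wirsing's argument: for a fixed coprime part `a` and a fixed abundancy `α` there are at most
`2 ^ K` cofactors `b` with at most `K` prime factors, all larger than `y ≥ 2 K`. -/
lemma comp_bound (y : ℕ) : ∀ K : ℕ, 2 * K ≤ y → ∀ (a α : ℕ), 0 < a → ∀ F : Finset ℕ,
    (∀ b ∈ F, 0 < b ∧ Nat.Coprime a b ∧ cardFactors b ≤ K ∧
      (∀ p : ℕ, p.Prime → p ∣ b → y < p) ∧ sigma 1 a * sigma 1 b = α * (a * b)) →
    F.card ≤ 2 ^ K := by
  intro K
  induction K using Nat.strong_induction_on with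
  | _ K ih =>
    intro hK a α ha F hF
    by_cases h1 : ∀ b ∈ F, b = 1
    · have : F ⊆ {1} := fun b hb => by simp [h1 b hb]
      calc F.card ≤ ({1} : Finset ℕ).card := Finset.card_le_card this
        _ = 1 := rfl
        _ ≤ 2 ^ K := Nat.one_le_two_pow
    · push Not at h1
      obtain ⟨b₀, hb₀, hb₀1⟩ := h1
      obtain ⟨hpos, hcop, hlen, hrough, heq⟩ := hF b₀ hb₀
      set g := Nat.gcd (α * a) (sigma 1 a) with hg
      set v := sigma 1 a / g with hv
      have hsa : 0 < sigma 1 a := lt_of_lt_of_le ha (le_sigma ha)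
      have hgpos : 0 < g := Nat.gcd_pos_of_pos_right _ hsa
      have hvs : v * g = sigma 1 a := Nat.div_mul_cancel (Nat.gcd_dvd_right _ _)
      have hu : (α * a / g) * g = α * a := Nat.div_mul_cancel (Nat.gcd_dvd_left _ _)
      have hmain : ∀ b ∈ F, v * sigma 1 b = (α * a / g) * b := by
        intro b hb
        obtain ⟨-, -, -, -, h⟩ := hF b hb
        apply Nat.eq_of_mul_eq_mul_left hgpos
        calc g * (v * sigma 1 b) = (v * g) * sigma 1 b := by ring
          _ = α * (a * b) := by rw [hvs, h]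
          _ = (α * a) * b := by ring
          _ = ((α * a / g) * g) * b := by rw [hu]
          _ = g * ((α * a / g) * b) := by ring
      have hvdvd : ∀ b ∈ F, v ∣ b := by
        intro b hb
        have hco : Nat.Coprime (α * a / g) v := Nat.coprime_div_gcd_div_gcd hgpos
        exact (hco.symm).dvd_of_dvd_mul_left (Dvd.intro _ (hmain b hb))
      have hv1 : v ≠ 1 := by
        intro hv1
        have h2 := hmain b₀ hb₀
        rw [hv1, one_mul] at h2
        have h3 : b₀ < sigma 1 b₀ := lt_sigma (by omega)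
        have h4 : sigma 1 b₀ < 2 * b₀ :=
          sigma_lt_two_mul hpos hrough ((primeFactors_card_le b₀).trans hlen) hK
        rw [h2] at h3 h4
        have h5 : α * a / g < 2 := Nat.lt_of_mul_lt_mul_right h4
        have h6 : 1 < α * a / g := by
          apply Nat.lt_of_mul_lt_mul_right (a := b₀)
          omega
        omega
      obtain ⟨q, hq, hqv⟩ := Nat.exists_prime_and_dvd hv1
      have hqb : ∀ b ∈ F, q ∣ b := fun b hb => hqv.trans (hvdvd b hb)
      have hmaps : ∀ b ∈ F, b.factorization q ∈ Finset.Icc 1 K := by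
        intro b hb
        obtain ⟨hbpos, -, hbK, -, -⟩ := hF b hb
        rw [Finset.mem_Icc]
        refine ⟨hq.factorization_pos_of_dvd hbpos.ne' (hqb b hb), ?_⟩
        refine le_trans ?_ hbK
        rw [cardFactors_apply, ← Nat.primeFactorsList_count_eq]
        exact List.count_le_length
      rw [Finset.card_eq_sum_card_fiberwise hmaps]
      refine le_trans (Finset.sum_le_sum (g := fun e => 2 ^ (K - e)) fun e he => ?_)
        (sum_pow_lt K).le
      rw [Finset.mem_Icc] at he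
      have hinj : Set.InjOn (fun b => b / q ^ e)
          (F.filter (fun b => b.factorization q = e) : Finset ℕ) := by
        intro b hb c hc hbc
        simp only [Finset.coe_filter, Set.mem_ofPred_eq] at hb hc
        have h2 : q ^ e ∣ b := by rw [← hb.2]; exact Nat.ordProj_dvd b q
        have h3 : q ^ e ∣ c := by rw [← hc.2]; exact Nat.ordProj_dvd c q
        simp only at hbc
        rw [← Nat.div_mul_cancel h2, ← Nat.div_mul_cancel h3, hbc]
      rw [← Finset.card_image_of_injOn hinj]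
      refine ih (K - e) (by omega) (by omega) (a * q ^ e) α
        (Nat.mul_pos ha (pow_pos hq.pos e)) _ ?_
      intro c hc
      simp only [Finset.mem_image, Finset.mem_filter] at hc
      obtain ⟨b, ⟨hb, hbe⟩, rfl⟩ := hc
      obtain ⟨hbpos, hbcop, hbK, hbr, hbeq⟩ := hF b hb
      have hdvd : q ^ e ∣ b := by rw [← hbe]; exact Nat.ordProj_dvd b q
      obtain ⟨c, hc⟩ := hdvd
      have hqe : 0 < q ^ e := pow_pos hq.pos e
      have hbc : b / q ^ e = c := by rw [hc]; exact Nat.mul_div_cancel_left c hqe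
      rw [hbc]
      have hcpos : 0 < c := by
        rcases Nat.eq_zero_or_pos c with h | h
        · rw [h, mul_zero] at hc; omega
        · exact h
      have hcb : c ∣ b := ⟨q ^ e, by rw [hc]; ring⟩
      have hqc : Nat.Coprime q c := by
        have := Nat.coprime_ordCompl hq hbpos.ne'
        rwa [hbe, hbc] at this
      have hqec : Nat.Coprime (q ^ e) c := Nat.Coprime.pow_left e hqc
      have haq : Nat.Coprime a (q ^ e) :=
        Nat.Coprime.coprime_dvd_right (by rw [hc]; exact Dvd.intro _ rfl) hbcop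
      have hac : Nat.Coprime a c := Nat.Coprime.coprime_dvd_right hcb hbcop
      refine ⟨hcpos, Nat.Coprime.mul_left hac hqec, ?_, ?_, ?_⟩
      · have h5 : cardFactors b = e + cardFactors c := by
          rw [hc, cardFactors_mul hqe.ne' hcpos.ne', cardFactors_apply_prime_pow hq]
        omega
      · intro p hp hpc
        exact hbr p hp (hpc.trans hcb)
      · rw [isMultiplicative_sigma.map_mul_of_coprime haq]
        calc sigma 1 a * sigma 1 (q ^ e) * sigma 1 c
            = sigma 1 a * (sigma 1 (q ^ e) * sigma 1 c) := by ring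
          _ = sigma 1 a * sigma 1 b := by
              rw [← isMultiplicative_sigma.map_mul_of_coprime hqec, ← hc]
          _ = α * (a * b) := hbeq
          _ = α * (a * q ^ e * c) := by rw [hc]; ring


/-- Splitting off the `y`-smooth part. -/
lemma exists_split (y B : ℕ) : 0 < B → ∃ s r : ℕ, B = s * r ∧ 0 < s ∧ 0 < r ∧
    (∀ p : ℕ, p.Prime → p ∣ s → p ≤ y) ∧ (∀ p : ℕ, p.Prime → p ∣ r → y < p) := by
  induction B using induction_on_primes with
  | zero => intro h; omega
  | one =>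
    intro _
    exact ⟨1, 1, rfl, one_pos, one_pos, fun p hp hd => absurd (Nat.dvd_one.mp hd) hp.one_lt.ne',
      fun p hp hd => absurd (Nat.dvd_one.mp hd) hp.one_lt.ne'⟩
  | prime_mul p n hp ih =>
    intro h
    have hn : 0 < n := Nat.pos_of_mul_pos_left h |> fun h => by
      rcases Nat.eq_zero_or_pos n with h' | h'
      · subst h'; simp at h
      · exact h'
    obtain ⟨s, r, rfl, hs, hr, h1, h2⟩ := ih hn
    by_cases hpy : p ≤ y
    · refine ⟨p * s, r, by ring, Nat.mul_pos hp.pos hs, hr, ?_, h2⟩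
      intro q hq hqd
      rcases (hq.dvd_mul).mp hqd with h3 | h3
      · rw [(Nat.prime_dvd_prime_iff_eq hq hp).mp h3]; exact hpy
      · exact h1 q hq h3
    · refine ⟨s, p * r, by ring, hs, Nat.mul_pos hp.pos hr, h1, ?_⟩
      intro q hq hqd
      rcases (hq.dvd_mul).mp hqd with h3 | h3
      · rw [(Nat.prime_dvd_prime_iff_eq hq hp).mp h3]; omega
      · exact h2 q hq h3

lemma pow_cardFactors_le (y r : ℕ) : 0 < r → (∀ p : ℕ, p.Prime → p ∣ r → y < p) →
    y ^ cardFactors r ≤ r := by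
  induction r using induction_on_primes with
  | zero => intro h; omega
  | one => intro _ _; simp
  | prime_mul p n hp ih =>
    intro h hr
    have hn : 0 < n := by
      rcases Nat.eq_zero_or_pos n with h' | h'
      · subst h'; simp at h
      · exact h'
    have h1 := ih hn (fun q hq hd => hr q hq (hd.mul_left p))
    have h2 := hr p hp (Dvd.intro n rfl)
    rw [cardFactors_mul hp.ne_zero hn.ne', cardFactors_apply_prime hp, pow_add, pow_one]
    exact Nat.mul_le_mul h2.le h1

lemma smooth_card (x y : ℕ) (S : Finset ℕ)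
    (hS : ∀ s ∈ S, 0 < s ∧ s ≤ x ∧ ∀ p : ℕ, p.Prime → p ∣ s → p ≤ y) :
    S.card ≤ (Nat.log 2 x + 1) ^ Nat.primeCounting y := by
  classical
  set P := (Finset.range (y + 1)).filter Nat.Prime with hP
  have hPc : P.card = Nat.primeCounting y := by
    rw [Nat.primeCounting, Nat.primeCounting', Nat.count_eq_card_filter_range]
  have h1 : S.card ≤ (Fintype.piFinset (fun _ : P => Finset.range (Nat.log 2 x + 1))).card := by
    refine Finset.card_le_card_of_injOn (fun s => fun p : P => s.factorization p) ?_ ?_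
    · intro s hs
      obtain ⟨hs0, hsx, -⟩ := hS s hs
      rw [Finset.mem_coe, Fintype.mem_piFinset]
      rintro ⟨p, hp⟩
      have hpp : p.Prime := (Finset.mem_filter.mp hp).2
      have h2 : p ^ s.factorization p ≤ s := Nat.ordProj_le p hs0.ne'
      have h3 : 2 ^ s.factorization p ≤ p ^ s.factorization p :=
        Nat.pow_le_pow_left hpp.two_le _
      have h4 : s.factorization p ≤ Nat.log 2 x :=
        Nat.le_log_of_pow_le (by norm_num) (h3.trans (h2.trans hsx))
      rw [Finset.mem_range]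
      show s.factorization p < Nat.log 2 x + 1
      omega
    · intro s hs t ht hst
      obtain ⟨hs0, -, hsy⟩ := hS s hs
      obtain ⟨ht0, -, hty⟩ := hS t ht
      refine Nat.eq_of_factorization_eq hs0.ne' ht0.ne' fun p => ?_
      by_cases hp : p.Prime
      · by_cases hpy : p ≤ y
        · exact congrFun hst ⟨p, by simp [hP, hp]; omega⟩
        · rw [Nat.factorization_eq_zero_of_not_dvd fun h => hpy (hsy p hp h),
            Nat.factorization_eq_zero_of_not_dvd fun h => hpy (hty p hp h)]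
      · rw [Nat.factorization_eq_zero_of_not_prime _ hp, Nat.factorization_eq_zero_of_not_prime _ hp]
  refine h1.trans (le_of_eq ?_)
  rw [Fintype.card_piFinset]
  simp [hPc]

/-- Hornfeck–Wirsing type bound for multiply perfect numbers up to `x`. -/
lemma mp_card (x y K M : ℕ) (hKy : 2 * K ≤ y) (hK : ∀ j : ℕ, y ^ j ≤ x → j ≤ K)
    (hM : ∀ B : ℕ, 0 < B → B ≤ x → sigma 1 B ≤ M * B) (S : Finset ℕ)
    (hS : ∀ B ∈ S, 0 < B ∧ B ≤ x ∧ B ∣ sigma 1 B) :
    S.card ≤ 2 ^ K * ((Nat.log 2 x + 1) ^ Nat.primeCounting y * (M + 1)) := by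
  classical
  have hex : ∀ B : ℕ, ∃ s r : ℕ, 0 < B → B = s * r ∧ 0 < s ∧ 0 < r ∧
      (∀ p : ℕ, p.Prime → p ∣ s → p ≤ y) ∧ (∀ p : ℕ, p.Prime → p ∣ r → y < p) := by
    intro B
    rcases Nat.eq_zero_or_pos B with h | h
    · exact ⟨0, 0, fun h' => by omega⟩
    · obtain ⟨s, r, h1⟩ := exists_split y B h
      exact ⟨s, r, fun _ => h1⟩
  choose s r hsr using hex
  set T := (Finset.Icc 1 x).filter (fun t => ∀ p : ℕ, p.Prime → p ∣ t → p ≤ y) with hT
  have hTc : T.card ≤ (Nat.log 2 x + 1) ^ Nat.primeCounting y := by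
    refine smooth_card x y T fun t ht => ?_
    rw [hT, Finset.mem_filter, Finset.mem_Icc] at ht
    exact ⟨by omega, ht.1.2, ht.2⟩
  have hmaps : ∀ B ∈ S, (s B, sigma 1 B / B) ∈ T ×ˢ Finset.range (M + 1) := by
    intro B hB
    obtain ⟨hB0, hBx, hBd⟩ := hS B hB
    obtain ⟨h1, h2, h3, h4, h5⟩ := hsr B hB0
    rw [Finset.mem_product, hT, Finset.mem_filter, Finset.mem_Icc, Finset.mem_range]
    refine ⟨⟨⟨h2, ?_⟩, h4⟩, ?_⟩
    · refine le_trans (Nat.le_of_dvd hB0 ⟨r B, h1⟩) hBx
    · have := hM B hB0 hBx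
      have h6 : sigma 1 B / B ≤ M := Nat.div_le_of_le_mul (by rw [mul_comm]; exact this)
      show sigma 1 B / B < M + 1
      omega
  have hfib : ∀ c ∈ T ×ˢ Finset.range (M + 1),
      (S.filter (fun B => (s B, sigma 1 B / B) = c)).card ≤ 2 ^ K := by
    rintro ⟨t, α⟩ hc
    rw [Finset.mem_product, hT, Finset.mem_filter, Finset.mem_Icc, Finset.mem_range] at hc
    have hinj : Set.InjOn r (S.filter (fun B => (s B, sigma 1 B / B) = (t, α)) : Finset ℕ) := by
      intro B hB C hC hBC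
      simp only [Finset.coe_filter, Set.mem_ofPred_eq, Prod.mk.injEq] at hB hC
      obtain ⟨h1, -⟩ := hsr B (hS B hB.1).1
      obtain ⟨h2, -⟩ := hsr C (hS C hC.1).1
      rw [h1, h2, hB.2.1, hC.2.1, hBC]
    rw [← Finset.card_image_of_injOn hinj]
    refine comp_bound y K hKy t α hc.1.1.1 _ ?_
    intro b hb
    simp only [Finset.mem_image, Finset.mem_filter, Prod.mk.injEq] at hb
    obtain ⟨B, ⟨hB, hBt, hBα⟩, rfl⟩ := hb
    obtain ⟨hB0, hBx, hBd⟩ := hS B hB
    obtain ⟨h1, h2, h3, h4, h5⟩ := hsr B hB0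
    rw [hBt] at h1 h2 h4
    have hcop : Nat.Coprime t (r B) := by
      rw [Nat.coprime_iff_gcd_eq_one]
      by_contra hne
      obtain ⟨p, hp, hpd⟩ := Nat.exists_prime_and_dvd hne
      have h6 := h4 p hp (hpd.trans (Nat.gcd_dvd_left _ _))
      have h7 := h5 p hp (hpd.trans (Nat.gcd_dvd_right _ _))
      omega
    refine ⟨h3, hcop, ?_, h5, ?_⟩
    · apply hK
      refine (pow_cardFactors_le y (r B) h3 h5).trans (le_trans ?_ hBx)
      exact Nat.le_of_dvd hB0 ⟨t, by rw [mul_comm]; exact h1⟩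
    · rw [← isMultiplicative_sigma.map_mul_of_coprime hcop, ← h1, ← hBα,
        Nat.div_mul_cancel hBd]
  refine (Finset.card_le_mul_card_image_of_maps_to hmaps _ hfib).trans ?_
  rw [Finset.card_product, Finset.card_range]
  exact Nat.mul_le_mul_left _ (Nat.mul_le_mul_right _ hTc)

lemma sigma_le_log (B : ℕ) (hB : 0 < B) : (sigma 1 B : ℝ) ≤ B * (1 + Real.log B) := by
  have h1 : (sigma 1 B : ℝ) = ∑ d ∈ B.divisors, (B : ℝ) * ((d : ℝ))⁻¹ := by
    rw [sigma_one_apply, ← Nat.sum_div_divisors B (fun d => d)]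
    push_cast
    refine Finset.sum_congr rfl fun d hd => ?_
    have hd' := Nat.mem_divisors.mp hd
    have hd0 : (d : ℝ) ≠ 0 := by
      have : d ≠ 0 := by rintro rfl; exact hB.ne' (Nat.eq_zero_of_zero_dvd hd'.1)
      exact_mod_cast this
    rw [Nat.cast_div hd'.1 hd0, div_eq_mul_inv]
  have h2 : ∑ d ∈ B.divisors, (B : ℝ) * ((d : ℝ))⁻¹ ≤ ∑ d ∈ Finset.Icc 1 B, (B : ℝ) * ((d : ℝ))⁻¹ := by
    refine Finset.sum_le_sum_of_subset_of_nonneg ?_ fun _ _ _ => by positivity
    intro d hd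
    rw [Finset.mem_Icc]
    exact ⟨Nat.pos_of_mem_divisors hd, Nat.divisor_le hd⟩
  have h3 : ((harmonic B : ℚ) : ℝ) = ∑ d ∈ Finset.Icc 1 B, ((d : ℝ))⁻¹ := by
    rw [harmonic_eq_sum_Icc]
    push_cast
    rfl
  have h4 := harmonic_le_one_add_log B
  rw [h1]
  refine h2.trans ?_
  rw [← Finset.mul_sum, ← h3]
  exact mul_le_mul_of_nonneg_left h4 (by positivity)


open Filter in
/-- The analytic part: parameters for the Wirsing count. -/
lemma params : ∃ x₀ : ℕ, ∀ x : ℕ, x₀ ≤ x → ∃ y K M : ℕ, 2 * K ≤ y ∧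
    (∀ j : ℕ, y ^ j ≤ x → j ≤ K) ∧ (1 + Real.log x ≤ M) ∧
    ((2 * Nat.log 2 x + 1 : ℕ) : ℝ) *
      ((2 ^ K * ((Nat.log 2 x + 1) ^ Nat.primeCounting y * (M + 1)) : ℕ) : ℝ) ≤
      (x : ℝ) ^ (70 / Real.log (Real.log x)) := by
  -- Chebyshev
  have hcheb := Chebyshev.eventually_primeCounting_le (ε := 2 - Real.log 4) (by
    have : Real.log 4 = 2 * Real.log 2 := by
      rw [show (4 : ℝ) = 2 ^ 2 by norm_num, Real.log_pow]; norm_num
    have := Real.log_two_lt_d9
    linarith)
  rw [Filter.eventually_atTop] at hcheb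
  obtain ⟨X0, hX0⟩ := hcheb
  have hL : Tendsto (fun x : ℕ => Real.log (x : ℝ)) atTop atTop :=
    Real.tendsto_log_atTop.comp tendsto_natCast_atTop_atTop
  have hev := hL.eventually_ge_atTop (max (X0 ^ 2) 100)
  rw [Filter.eventually_atTop] at hev
  obtain ⟨x₀, hx₀⟩ := hev
  refine ⟨max x₀ 3, fun x hx => ?_⟩
  have hx1 := hx₀ x ((le_max_left _ _).trans hx)
  have hx3 : 3 ≤ x := (le_max_right _ _).trans hx
  set L := Real.log (x : ℝ) with hLdef
  have hL1 : X0 ^ 2 ≤ L := (le_max_left _ _).trans hx1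
  have hL2 : (100 : ℝ) ≤ L := (le_max_right _ _).trans hx1
  have hL0 : 0 < L := by linarith
  set l := Real.log L with hldef
  have hl1 : 1 ≤ l := by
    rw [hldef, Real.le_log_iff_exp_le hL0]
    have := Real.exp_one_lt_d9
    linarith
  have hl0 : 0 < l := by linarith
  -- `l ≤ 2 √L`
  have hsq : Real.sqrt L ^ 2 = L := Real.sq_sqrt hL0.le
  have hsq0 : 0 < Real.sqrt L := Real.sqrt_pos.mpr hL0
  have hl2 : l ≤ 2 * Real.sqrt L := by
    have h1 : l = 2 * Real.log (Real.sqrt L) := by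
      rw [hldef, Real.log_sqrt hL0.le]; ring
    have h2 := Real.log_le_sub_one_of_pos hsq0
    linarith
  have hlL : l ≤ L := by
    have := Real.log_le_sub_one_of_pos hL0
    linarith
  -- y
  set y := ⌈4 * L / l⌉₊ with hy
  have hy1 : 4 * L / l ≤ y := Nat.le_ceil _
  have hy2 : (y : ℝ) < 4 * L / l + 1 := Nat.ceil_lt_add_one (by positivity)
  have hLl1 : 1 ≤ L / l := by rw [one_le_div hl0]; exact hlL
  have hy3 : (y : ℝ) ≤ 5 * (L / l) := by
    have : 4 * L / l = 4 * (L / l) := by ring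
    rw [this] at hy2; linarith
  have hy4 : 2 * Real.sqrt L ≤ y := by
    refine le_trans ?_ hy1
    rw [le_div_iff₀ hl0]
    nlinarith
  have hy5 : Real.sqrt L ≤ y := by linarith
  have hypos : (0 : ℝ) < y := lt_of_lt_of_le hsq0 hy5
  have hlogy : l / 2 ≤ Real.log y := by
    have h1 : l / 2 = Real.log (Real.sqrt L) := by rw [hldef, Real.log_sqrt hL0.le]
    rw [h1]
    exact Real.log_le_log hsq0 hy5
  have hlogy0 : 0 < Real.log y := by linarith
  have hy6 : X0 ≤ y := by
    rcases le_or_gt X0 0 with h | h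
    · linarith
    · have : X0 ≤ Real.sqrt L := Real.le_sqrt_of_sq_le hL1
      linarith
  have hpi : (Nat.primeCounting y : ℝ) ≤ 20 * (L / l) / l := by
    have h1 := hX0 y hy6
    rw [Nat.floor_natCast] at h1
    have h2 : (Real.log 4 + (2 - Real.log 4)) * (y : ℝ) / Real.log y = 2 * y / Real.log y := by
      ring
    rw [h2] at h1
    refine h1.trans ?_
    rw [div_le_div_iff₀ hlogy0 hl0]
    have h3 : 0 ≤ L / l := by positivity
    nlinarith
  -- K
  set K := ⌊L / Real.log y⌋₊ with hK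
  have hK1 : (K : ℝ) ≤ L / Real.log y := Nat.floor_le (by positivity)
  have hK2 : (K : ℝ) ≤ 2 * (L / l) := by
    refine hK1.trans ?_
    rw [div_le_iff₀ hlogy0]
    have h3 : 0 ≤ L / l := by positivity
    have h4 : L = (L / l) * l := by field_simp
    nlinarith
  have hKy : 2 * K ≤ y := by
    have : 2 * (K : ℝ) ≤ y := by
      have h5 : 4 * L / l = 4 * (L / l) := by ring
      rw [h5] at hy1; linarith
    exact_mod_cast this
  have hxpos : (0 : ℝ) < x := by positivity
  have hKj : ∀ j : ℕ, y ^ j ≤ x → j ≤ K := by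
    intro j hj
    rw [hK]
    apply Nat.le_floor
    rw [le_div_iff₀ hlogy0, ← Real.log_pow]
    apply Real.log_le_log (by positivity)
    exact_mod_cast hj
  -- M
  set M := ⌈1 + L⌉₊ with hM
  have hM1 : 1 + L ≤ M := Nat.le_ceil _
  have hM2 : (M : ℝ) < 1 + L + 1 := Nat.ceil_lt_add_one (by positivity)
  refine ⟨y, K, M, hKy, hKj, hM1, ?_⟩
  -- the logarithm base 2
  have hlog2 : (Nat.log 2 x : ℝ) ≤ 2 * L := by
    have h1 : 2 ^ Nat.log 2 x ≤ x := Nat.pow_log_le_self 2 (by omega)
    have h2 : (Nat.log 2 x : ℝ) * Real.log 2 ≤ L := by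
      rw [← Real.log_pow]
      apply Real.log_le_log (by positivity)
      exact_mod_cast h1
    have h3 := Real.log_two_gt_d9
    nlinarith [(Nat.cast_nonneg (Nat.log 2 x) : (0 : ℝ) ≤ Nat.log 2 x)]
  have hLsq : L ^ 2 = Real.exp (2 * l) := by
    rw [two_mul, Real.exp_add, hldef, Real.exp_log hL0]; ring
  have hll : 4 * l ≤ 16 * (L / l) := by
    have h4 : L = (L / l) * l := by field_simp
    have h5 : l * l ≤ 4 * L := by nlinarith
    have h6 : l ≤ 4 * (L / l) := by
      rw [← mul_div_assoc, le_div_iff₀ hl0]; exact h5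
    linarith
  have hLL : 100 * L ≤ L ^ 2 := by rw [sq]; exact mul_le_mul_of_nonneg_right hL2 hL0.le
  have e1 : ((2 * Nat.log 2 x + 1 : ℕ) : ℝ) ≤ Real.exp (2 * l) := by
    push_cast; rw [← hLsq]; linarith
  have e2 : ((M : ℝ) + 1) ≤ Real.exp (2 * l) := by
    rw [← hLsq]; linarith
  have e3 : ((Nat.log 2 x + 1 : ℕ) : ℝ) ^ Nat.primeCounting y ≤ Real.exp (40 * (L / l)) := by
    have h1 : ((Nat.log 2 x + 1 : ℕ) : ℝ) ≤ Real.exp (2 * l) := by
      push_cast; rw [← hLsq]; linarith
    calc ((Nat.log 2 x + 1 : ℕ) : ℝ) ^ Nat.primeCounting y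
        ≤ Real.exp (2 * l) ^ Nat.primeCounting y := pow_le_pow_left₀ (by positivity) h1 _
      _ = Real.exp (Nat.primeCounting y * (2 * l)) := by rw [← Real.exp_nat_mul]
      _ ≤ Real.exp (40 * (L / l)) := by
          apply Real.exp_le_exp.mpr
          have h2 : 20 * (L / l) / l * (2 * l) = 40 * (L / l) := by field_simp; ring
          rw [← h2]
          exact mul_le_mul_of_nonneg_right hpi (by positivity)
  have e4 : (2 : ℝ) ^ K ≤ Real.exp (2 * (L / l)) := by
    have h1 : (2 : ℝ) ≤ Real.exp 1 := by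
      have := Real.add_one_le_exp (1 : ℝ); linarith
    calc (2 : ℝ) ^ K ≤ Real.exp 1 ^ K := pow_le_pow_left₀ (by norm_num) h1 _
      _ = Real.exp (K * 1) := by rw [← Real.exp_nat_mul]
      _ ≤ Real.exp (2 * (L / l)) := Real.exp_le_exp.mpr (by rw [mul_one]; exact hK2)
  have hfin : (x : ℝ) ^ (70 / Real.log (Real.log x)) = Real.exp (70 * (L / l)) := by
    rw [Real.rpow_def_of_pos hxpos]
    congr 1
    rw [← hLdef, ← hldef]; ring
  rw [hfin]
  push_cast at e1 e3 ⊢
  calc (2 * (Nat.log 2 x : ℝ) + 1) *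
        (2 ^ K * (((Nat.log 2 x : ℝ) + 1) ^ Nat.primeCounting y * ((M : ℝ) + 1)))
      ≤ Real.exp (2 * l) * (Real.exp (2 * (L / l)) *
          (Real.exp (40 * (L / l)) * Real.exp (2 * l))) := by
        gcongr
    _ = Real.exp (4 * l + 42 * (L / l)) := by
        rw [← Real.exp_add, ← Real.exp_add, ← Real.exp_add]; congr 1; ring
    _ ≤ Real.exp (70 * (L / l)) := by
        apply Real.exp_le_exp.mpr
        linarith


section Dickson

open Filter Topology

lemma dich (U : Ultrafilter ℕ) (f : ℕ → ℕ) :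
    (∃ c, ∀ᶠ j in (U : Filter ℕ), f j = c) ∨ Tendsto f U atTop := by
  by_cases h : ∃ c, ∀ᶠ j in (U : Filter ℕ), f j = c
  · exact Or.inl h
  · right
    rw [Filter.tendsto_atTop]
    intro m
    have h1 : ∀ c, ∀ᶠ j in (U : Filter ℕ), ¬ f j = c := fun c =>
      Ultrafilter.eventually_not.mpr fun hc => h ⟨c, hc⟩
    have h2 : ∀ᶠ j in (U : Filter ℕ), ∀ c ∈ Finset.range m, ¬ f j = c :=
      (Filter.eventually_all_finset _).mpr (fun c _ => h1 c)
    filter_upwards [h2] with j hj
    by_contra hlt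
    push Not at hlt
    exact hj (f j) (Finset.mem_range.mpr hlt) rfl

lemma sigma_geom {p : ℕ} (hp : p.Prime) (e : ℕ) :
    (sigma 1 (p ^ e) : ℝ) * ((p : ℝ) - 1) = (p : ℝ) ^ (e + 1) - 1 := by
  rw [sigma_one_apply_prime_pow hp]
  push_cast
  exact geom_sum_mul (p : ℝ) (e + 1)

lemma tri (U : Ultrafilter ℕ) (p e : ℕ → ℕ) (hp : ∀ j, (p j).Prime) (ho : ∀ j, Odd (p j))
    (he : ∀ j, 0 < e j) :
    ∃ (l : ℝ) (u w : ℕ → ℕ) (c : ℕ), 0 < l ∧
      Tendsto (fun j => (sigma 1 (p j ^ e j) : ℝ) / ((p j ^ e j : ℕ) : ℝ)) U (𝓝 l) ∧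
      ∀ᶠ j in (U : Filter ℕ), (sigma 1 (p j ^ e j) : ℝ) / ((p j ^ e j : ℕ) : ℝ) * w j = l * u j ∧
        Odd (w j) ∧ (Even (u j) ∨ (w j ≤ u j ∧ (u j = w j → p j ^ e j = c))) := by
  have hspos : ∀ q f : ℕ, q.Prime → 0 < (sigma 1 (q ^ f) : ℝ) := by
    intro q f hq
    have h1 := le_sigma (pow_pos hq.pos f)
    have h2 := pow_pos hq.pos f
    exact_mod_cast (by omega : 0 < sigma 1 (q ^ f))
  rcases dich U p with ⟨P, hP⟩ | hpinf
  · obtain ⟨j₀, hj₀⟩ := hP.exists
    have hPp : P.Prime := hj₀ ▸ hp j₀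
    have hPo : Odd P := hj₀ ▸ ho j₀
    have hP1 : (1 : ℝ) < P := by exact_mod_cast hPp.one_lt
    rcases dich U e with ⟨E, hE⟩ | heinf
    · refine ⟨(sigma 1 (P ^ E) : ℝ) / ((P ^ E : ℕ) : ℝ), fun _ => 1, fun _ => 1, P ^ E, ?_, ?_, ?_⟩
      · have h1 := hspos P E hPp
        have h2 : (0 : ℝ) < ((P ^ E : ℕ) : ℝ) := by exact_mod_cast pow_pos hPp.pos E
        positivity
      · refine Tendsto.congr' ?_ tendsto_const_nhds
        filter_upwards [hP, hE] with j h1 h2
        rw [h1, h2]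
      · filter_upwards [hP, hE] with j h1 h2
        rw [h1, h2]
        exact ⟨rfl, odd_one, Or.inr ⟨le_rfl, fun _ => rfl⟩⟩
    · have hP0 : (P : ℝ) - 1 ≠ 0 := by linarith
      have hPne : (P : ℝ) ≠ 0 := by linarith
      have hs : ∀ f : ℕ, (sigma 1 (P ^ f) : ℝ) / ((P ^ f : ℕ) : ℝ) =
          (P : ℝ) / (P - 1) - (1 / (P - 1)) * ((1 : ℝ) / P) ^ f := by
        intro f
        have h1 := sigma_geom hPp f
        have h2 : (sigma 1 (P ^ f) : ℝ) = ((P : ℝ) ^ (f + 1) - 1) / (P - 1) := by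
          rw [eq_div_iff hP0]; exact h1
        rw [h2]
        push_cast
        rw [div_pow, one_pow, pow_succ]
        field_simp
      refine ⟨(P : ℝ) / (P - 1), fun j => P ^ (e j + 1) - 1, fun j => P ^ (e j + 1), 0, ?_, ?_, ?_⟩
      · have : (0 : ℝ) < (P : ℝ) - 1 := by linarith
        positivity
      · have h3 : Tendsto (fun j => (P : ℝ) / (P - 1) - (1 / (P - 1)) * ((1 : ℝ) / P) ^ (e j))
            U (𝓝 ((P : ℝ) / (P - 1) - (1 / (P - 1)) * 0)) := by
          refine Tendsto.sub tendsto_const_nhds (Tendsto.mul tendsto_const_nhds ?_)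
          refine (tendsto_pow_atTop_nhds_zero_of_lt_one (by positivity) ?_).comp heinf
          rw [div_lt_one (by linarith)]; exact hP1
        rw [mul_zero, sub_zero] at h3
        refine Tendsto.congr' ?_ h3
        filter_upwards [hP] with j h1
        rw [h1, hs]
      · filter_upwards [hP] with j h1
        rw [h1]
        have hge : 1 ≤ P ^ (e j + 1) := Nat.one_le_pow _ _ hPp.pos
        refine ⟨?_, hPo.pow, Or.inl ?_⟩
        · rw [hs, Nat.cast_sub hge]
          push_cast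
          rw [div_pow, one_pow, pow_succ]
          field_simp
        · have h2 : Odd (P ^ (e j + 1)) := hPo.pow
          obtain ⟨m, hm⟩ := h2
          exact ⟨m, by omega⟩
  · refine ⟨1, fun j => sigma 1 (p j ^ e j), fun j => p j ^ e j, 0, one_pos, ?_, ?_⟩
    · have hcast : Tendsto (fun j => ((p j : ℕ) : ℝ)) U atTop :=
        tendsto_natCast_atTop_atTop.comp hpinf
      have hinv : Tendsto (fun j => 1 + ((p j : ℝ) - 1)⁻¹) U (𝓝 (1 + 0)) := by
        refine Tendsto.add tendsto_const_nhds ?_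
        exact tendsto_inv_atTop_zero.comp (tendsto_atTop_add_const_right _ (-1) hcast)
      rw [add_zero] at hinv
      refine tendsto_of_tendsto_of_tendsto_of_le_of_le tendsto_const_nhds hinv ?_ ?_
      · intro j
        have h1 := le_sigma (pow_pos (hp j).pos (e j))
        have h2 : (0 : ℝ) < ((p j ^ e j : ℕ) : ℝ) := by exact_mod_cast pow_pos (hp j).pos (e j)
        show (1 : ℝ) ≤ (sigma 1 (p j ^ e j) : ℝ) / ((p j ^ e j : ℕ) : ℝ)
        rw [le_div_iff₀ h2, one_mul]
        exact_mod_cast h1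
      · intro j
        have hp1 : (1 : ℝ) < p j := by exact_mod_cast (hp j).one_lt
        have h2 : (0 : ℝ) < ((p j ^ e j : ℕ) : ℝ) := by exact_mod_cast pow_pos (hp j).pos (e j)
        have h3 := sigma_geom (hp j) (e j)
        have h4 : (0 : ℝ) < (p j : ℝ) - 1 := by linarith
        show (sigma 1 (p j ^ e j) : ℝ) / ((p j ^ e j : ℕ) : ℝ) ≤ 1 + ((p j : ℝ) - 1)⁻¹
        rw [div_le_iff₀ h2]
        have h5 : (sigma 1 (p j ^ e j) : ℝ) = ((p j : ℝ) ^ (e j + 1) - 1) / (p j - 1) := by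
          rw [eq_div_iff h4.ne']; exact h3
        have h6 : (1 + ((p j : ℝ) - 1)⁻¹) * ((p j ^ e j : ℕ) : ℝ) =
            ((p j : ℝ) ^ (e j + 1)) / (p j - 1) := by
          push_cast
          rw [pow_succ]
          field_simp
          ring
        rw [h5, h6]
        apply div_le_div_of_nonneg_right _ h4.le
        linarith
    · refine Filter.Eventually.of_forall fun j => ?_
      have h1 : 1 < p j ^ e j := Nat.one_lt_pow (he j).ne' (hp j).one_lt
      have h2 := lt_sigma h1
      have h3 : (0 : ℝ) < ((p j ^ e j : ℕ) : ℝ) := by exact_mod_cast (by omega : 0 < p j ^ e j)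
      refine ⟨?_, (ho j).pow, Or.inr ⟨h2.le, fun h => ?_⟩⟩
      · show (sigma 1 (p j ^ e j) : ℝ) / ((p j ^ e j : ℕ) : ℝ) * ((p j ^ e j : ℕ) : ℝ) =
          1 * (sigma 1 (p j ^ e j) : ℝ)
        rw [div_mul_cancel₀ _ h3.ne', one_mul]
      · exfalso
        have h4 : sigma 1 (p j ^ e j) = p j ^ e j := h
        omega

/-- Dickson's finiteness theorem for odd multiply perfect numbers. -/
lemma dickson (k : ℕ) :
    {N : ℕ | Odd N ∧ N.primeFactors.card = k ∧ N ∣ sigma 1 N}.Finite := by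
  by_contra hinf
  have hinf' : {N : ℕ | Odd N ∧ N.primeFactors.card = k ∧ N ∣ sigma 1 N}.Infinite := hinf
  set emb := hinf'.natEmbedding
  set N : ℕ → ℕ := fun j => (emb j : ℕ) with hN
  have hNinj : Function.Injective N := fun i j h => emb.injective (Subtype.ext h)
  have hNp : ∀ j, Odd (N j) ∧ (N j).primeFactors.card = k ∧ N j ∣ sigma 1 (N j) :=
    fun j => (emb j).2
  have hNpos : ∀ j, 0 < N j := fun j => (hNp j).1.pos
  set U := Filter.hyperfilter ℕ with hU
  set p : ℕ → Fin k → ℕ := fun j i => (N j).primeFactors.orderEmbOfFin (hNp j).2.1 i with hp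
  have hpmem : ∀ j i, p j i ∈ (N j).primeFactors := fun j i =>
    Finset.orderEmbOfFin_mem _ _ _
  have hpp : ∀ j i, (p j i).Prime := fun j i => Nat.prime_of_mem_primeFactors (hpmem j i)
  have hpd : ∀ j i, p j i ∣ N j := fun j i => Nat.dvd_of_mem_primeFactors (hpmem j i)
  have hpo : ∀ j i, Odd (p j i) := fun j i => Odd.of_dvd_nat (hNp j).1 (hpd j i)
  set e : ℕ → Fin k → ℕ := fun j i => (N j).factorization (p j i) with he
  have hepos : ∀ j i, 0 < e j i := fun j i =>
    (hpp j i).factorization_pos_of_dvd (hNpos j).ne' (hpd j i)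
  have hprodN : ∀ (f : ℕ → ℕ → ℕ) (j : ℕ), (N j).factorization.prod f = ∏ i, f (p j i) (e j i) := by
    intro f j
    rw [Finsupp.prod, Nat.support_factorization]
    conv_lhs => rw [← Finset.image_orderEmbOfFin_univ (N j).primeFactors (hNp j).2.1]
    rw [Finset.prod_image]
    intro a _ b _ hab
    exact ((N j).primeFactors.orderEmbOfFin (hNp j).2.1).injective hab
  have hNeq : ∀ j, N j = ∏ i, p j i ^ e j i := by
    intro j
    rw [← hprodN (fun q f => q ^ f) j]
    exact (Nat.prod_factorization_pow_eq_self (hNpos j).ne').symm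
  have hseq : ∀ j, sigma 1 (N j) = ∏ i, sigma 1 (p j i ^ e j i) := by
    intro j
    rw [← hprodN (fun q f => sigma 1 (q ^ f)) j]
    exact IsMultiplicative.multiplicative_factorization _ isMultiplicative_sigma (hNpos j).ne'
  -- the quotient is constant along the ultrafilter
  have hc : ∃ C : ℕ, ∀ᶠ j in (U : Filter ℕ), sigma 1 (N j) / N j = C := by
    rcases dich U (fun j => sigma 1 (N j) / N j) with h | h
    · exact h
    · exfalso
      have h1 := (Filter.tendsto_atTop.mp h) (2 ^ k + 1)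
      obtain ⟨j, hj⟩ := h1.exists
      have h2 := sigma_rough_le 1 (N j) (hNpos j) (fun p hp _ => hp.one_lt)
      rw [(hNp j).2.1] at h2
      have h3 : sigma 1 (N j) / N j ≤ 2 ^ k := by
        apply Nat.div_le_of_le_mul
        simpa using h2
      omega
  obtain ⟨C, hC⟩ := hc
  have htri := fun i => tri U (fun j => p j i) (fun j => e j i) (fun j => hpp j i)
    (fun j => hpo j i) (fun j => hepos j i)
  choose l u w c hl hlim hev using htri
  have hlim' : Tendsto (fun j => ∏ i, (sigma 1 (p j i ^ e j i) : ℝ) / ((p j i ^ e j i : ℕ) : ℝ))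
      U (𝓝 (∏ i, l i)) := tendsto_finsetProd _ fun i _ => hlim i
  have hprod : ∀ j, ∏ i, (sigma 1 (p j i ^ e j i) : ℝ) / ((p j i ^ e j i : ℕ) : ℝ) =
      (sigma 1 (N j) : ℝ) / (N j : ℝ) := by
    intro j
    rw [Finset.prod_div_distrib, hseq j]
    conv_rhs => rw [hNeq j]
    push_cast
    rfl
  have hquot : ∀ᶠ j in (U : Filter ℕ), (sigma 1 (N j) : ℝ) / (N j : ℝ) = C := by
    filter_upwards [hC] with j hj
    obtain ⟨d, hd⟩ := (hNp j).2.2
    have h1 : (N j : ℝ) ≠ 0 := by exact_mod_cast (hNpos j).ne'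
    have h2 : d = C := by
      rw [← hj, hd, Nat.mul_div_cancel_left _ (hNpos j)]
    rw [hd, h2]
    push_cast
    field_simp
  have hCl : (C : ℝ) = ∏ i, l i := by
    refine tendsto_nhds_unique (f := fun _ : ℕ => (C : ℝ)) (l := (U : Filter ℕ))
      tendsto_const_nhds ?_
    refine Tendsto.congr' ?_ hlim'
    filter_upwards [hquot] with j hj
    rw [hprod j, hj]
  have hall := Filter.eventually_all.mpr hev
  have hfinal : ∀ᶠ j in (U : Filter ℕ), N j = ∏ i, c i := by
    filter_upwards [hall, hquot] with j hj hq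
    have h1 : ∏ i, ((sigma 1 (p j i ^ e j i) : ℝ) / ((p j i ^ e j i : ℕ) : ℝ) * w i j) =
        ∏ i, (l i * u i j) := Finset.prod_congr rfl fun i _ => (hj i).1
    rw [Finset.prod_mul_distrib, Finset.prod_mul_distrib, hprod j, hq, hCl] at h1
    have h2 : ∏ i, l i ≠ 0 := (Finset.prod_pos fun i _ => hl i).ne'
    have h3 : (∏ i, (w i j : ℝ)) = ∏ i, (u i j : ℝ) := mul_left_cancel₀ h2 h1
    have h4 : (∏ i, w i j) = ∏ i, u i j := by exact_mod_cast h3
    have h5 : Odd (∏ i, w i j) := by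
      apply Finset.prod_induction _ Odd (fun a b ha hb => ha.mul hb) odd_one
      intro i _
      exact (hj i).2.1
    rw [h4] at h5
    have h6 : ∀ i, ¬ Even (u i j) := by
      intro i hi
      have : Even (∏ i, u i j) := by
        rw [even_iff_two_dvd] at hi ⊢
        exact hi.trans (Finset.dvd_prod_of_mem _ (Finset.mem_univ i))
      exact (Nat.not_even_iff_odd.mpr h5) this
    have h7 : ∀ i, w i j ≤ u i j ∧ (u i j = w i j → p j i ^ e j i = c i) := by
      intro i
      rcases (hj i).2.2 with h | h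
      · exact absurd h (h6 i)
      · exact h
    have h8 : ∀ i, u i j = w i j := by
      by_contra hcon
      push Not at hcon
      obtain ⟨i, hi⟩ := hcon
      have h9 : ∏ i, w i j < ∏ i, u i j := by
        refine Finset.prod_lt_prod (fun i _ => (hj i).2.1.pos) (fun i _ => (h7 i).1)
          ⟨i, Finset.mem_univ i, lt_of_le_of_ne (h7 i).1 (Ne.symm hi)⟩
      omega
    rw [hNeq j]
    exact Finset.prod_congr rfl fun i _ => (h7 i).2 (h8 i)
  -- contradiction with injectivity
  have hcof : ∀ᶠ j in (U : Filter ℕ), N j ≠ ∏ i, c i := by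
    have h1 : {j | ¬ N j ≠ ∏ i, c i}.Finite := by
      refine Set.Subsingleton.finite ?_
      intro a ha b hb
      simp only [ne_eq, not_not, Set.mem_ofPred_eq] at ha hb
      exact hNinj (ha.trans hb.symm)
    exact Filter.hyperfilter_le_cofinite h1
  obtain ⟨j, h1, h2⟩ := (hfinal.and hcof).exists
  exact h2 h1


end Dickson

/-- The exceptions to Q1 up to `x`: the integers `1 ≤ n ≤ x` for which `a(n) = n / gcd(n, σ(n))`
is practical but `n` is not. -/
def exceptions (x : ℕ) : Set ℕ :=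
  {n | 0 < n ∧ n ≤ x ∧ Practical (a n) ∧ ¬ Practical n}

/-- The odd multiply perfect numbers `1 < B ≤ x`. -/
def oddMultiperfect (x : ℕ) : Set ℕ := {B | 1 < B ∧ B ≤ x ∧ Odd B ∧ B ∣ sigma 1 B}

lemma exceptions_finite (x : ℕ) : (exceptions x).Finite :=
  (Set.finite_Icc 1 x).subset fun _ hn => ⟨hn.1, hn.2.1⟩

lemma oddMultiperfect_finite (x : ℕ) : (oddMultiperfect x).Finite :=
  (Set.finite_Icc 1 x).subset fun _ hn => ⟨hn.1.le, hn.2.1⟩

/-- The least prime factor of a multiply perfect number `B > 1` is at most `2 ω(B)`. -/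
lemma minFac_le {B : ℕ} (hB : 1 < B) (hd : B ∣ sigma 1 B) :
    B.minFac ≤ 2 * B.primeFactors.card := by
  by_contra hcon
  push Not at hcon
  have hp : B.minFac.Prime := Nat.minFac_prime hB.ne'
  have h1 : sigma 1 B < 2 * B := by
    refine sigma_lt_two_mul (y := B.minFac - 1) (K := B.primeFactors.card) (by omega) ?_ le_rfl
      (by omega)
    intro p hp' hpB
    have h2 := Nat.minFac_le_of_dvd hp'.two_le hpB
    have h3 := hp.two_le
    omega
  have h2 := lt_sigma hB
  obtain ⟨c, hc⟩ := hd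
  rw [hc] at h1 h2
  have h3 : c < 2 := by
    apply Nat.lt_of_mul_lt_mul_left (a := B)
    rw [mul_comm B 2]; exact h1
  have h4 : 1 < c := by
    apply Nat.lt_of_mul_lt_mul_left (a := B)
    omega
  omega

lemma structure_thm (n : ℕ) (hn : 0 < n) (ha : Practical (a n))
    (hp : ¬ Practical n) : ∃ A B : ℕ, n = A * B ∧ 1 < B ∧ Odd B ∧ B ∣ sigma 1 B ∧
      Practical A ∧ (∀ p : ℕ, p.Prime → p ∣ B → sigma 1 A + 1 < p) ∧
      sigma 1 A + 1 < 2 * B.primeFactors.card := by
  obtain ⟨A, B, h1, h2, h3, h4, h5, h6, -⟩ := (counterexample_iff n hn).mp ⟨ha, hp⟩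
  refine ⟨A, B, h1, h2, h3, h4, h6, h5, ?_⟩
  exact lt_of_lt_of_le (h5 B.minFac (Nat.minFac_prime h2.ne') (Nat.minFac_dvd B))
    (minFac_le h2 h4)

lemma two_mul_card_le {B x : ℕ} (hB : 1 < B) (hBx : B ≤ x) (ho : Odd B) :
    B.primeFactors.card ≤ Nat.log 2 x := by
  apply Nat.le_log_of_pow_le (by norm_num)
  refine le_trans ?_ hBx
  refine le_trans (Nat.pow_le_pow_right (by norm_num) (primeFactors_card_le B)) ?_
  refine pow_cardFactors_le 2 B (by omega) fun p hp hpB => ?_
  have h1 := hp.two_le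
  rcases Nat.lt_or_ge 2 p with h | h
  · exact h
  · have h2 : p = 2 := by omega
    subst h2
    exact absurd (even_iff_two_dvd.mpr hpB) (Nat.not_even_iff_odd.mpr ho)

lemma lower (x : ℕ) : (oddMultiperfect x).ncard ≤ (exceptions x).ncard := by
  refine Set.ncard_le_ncard ?_ (exceptions_finite x)
  rintro B ⟨h1, h2, h3, h4⟩
  have h5 : Practical (a B) ∧ ¬ Practical B := by
    refine (counterexample_iff B (by omega)).mpr
      ⟨1, B, (one_mul B).symm, h1, h3, h4, ?_, practical_one, ?_⟩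
    · intro p hp hpB
      have h6 : p ≠ 2 := by
        rintro rfl
        exact (Nat.not_even_iff_odd.mpr h3) (even_iff_two_dvd.mpr hpB)
      have h7 := hp.two_le
      have : sigma 1 1 = 1 := by simp
      omega
    · simpa using practical_one
  exact ⟨by omega, h2, h5.1, h5.2⟩

lemma upper (x : ℕ) :
    (exceptions x).ncard ≤ 2 * Nat.log 2 x * (oddMultiperfect x).ncard := by
  classical
  have hsub : exceptions x ⊆
      (fun c : ℕ × ℕ => c.1 * c.2) '' ((Set.Icc 1 (2 * Nat.log 2 x)) ×ˢ oddMultiperfect x) := by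
    rintro n ⟨hn0, hnx, ha, hp⟩
    obtain ⟨A, B, h1, h2, h3, h4, h5, -, h6⟩ := structure_thm n hn0 ha hp
    have hA : 0 < A := h5.1
    have hBx : B ≤ x := le_trans (Nat.le_of_dvd hn0 ⟨A, by rw [h1]; ring⟩) hnx
    have h7 := two_mul_card_le h2 hBx h3
    have h8 := le_sigma hA
    refine ⟨(A, B), ⟨⟨hA, ?_⟩, h2, hBx, h3, h4⟩, h1.symm⟩
    show A ≤ 2 * Nat.log 2 x
    omega
  have hfin : ((Set.Icc 1 (2 * Nat.log 2 x)) ×ˢ oddMultiperfect x).Finite :=
    (Set.finite_Icc _ _).prod (oddMultiperfect_finite x)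
  refine (Set.ncard_le_ncard hsub (hfin.image _)).trans ?_
  refine (Set.ncard_image_le hfin).trans ?_
  rw [Set.ncard_prod]
  refine Nat.mul_le_mul_right _ ?_
  rw [← Nat.card_coe_set_eq]
  simp

/-- The exceptions to Q1 with at most `k` distinct prime factors form a finite set. -/
lemma finite_omega (k : ℕ) :
    {n : ℕ | 0 < n ∧ n.primeFactors.card ≤ k ∧ Practical (a n) ∧
      ¬ Practical n}.Finite := by
  have hfin : (⋃ j ∈ Set.Iic k,
      {N : ℕ | Odd N ∧ N.primeFactors.card = j ∧ N ∣ sigma 1 N}).Finite :=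
    Set.Finite.biUnion (Set.finite_Iic k) fun j _ => dickson j
  refine (((Set.finite_Icc 1 (2 * k)).prod hfin).image (fun c : ℕ × ℕ => c.1 * c.2)).subset ?_
  rintro n ⟨hn0, hnk, ha, hp⟩
  obtain ⟨A, B, h1, h2, h3, h4, h5, -, h6⟩ := structure_thm n hn0 ha hp
  have hBn : B ∣ n := ⟨A, by rw [h1]; ring⟩
  have hBk : B.primeFactors.card ≤ k :=
    le_trans (Finset.card_le_card (Nat.primeFactors_mono hBn hn0.ne')) hnk
  have h8 := le_sigma h5.1
  refine ⟨(A, B), ⟨⟨h5.1, ?_⟩, ?_⟩, h1.symm⟩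
  · show A ≤ 2 * k
    omega
  · simp only [Set.mem_iUnion]
    exact ⟨B.primeFactors.card, hBk, h3, rfl, h4⟩

/-- The number of exceptions up to `x` is at most `x ^ (70 / log log x)` for large `x`. -/
lemma few : ∃ x₀ : ℕ, ∀ x : ℕ, x₀ ≤ x →
    ((exceptions x).ncard : ℝ) ≤ (x : ℝ) ^ (70 / Real.log (Real.log x)) := by
  obtain ⟨x₀, hx₀⟩ := params
  refine ⟨x₀, fun x hx => ?_⟩
  obtain ⟨y, K, M, h1, h2, h3, h4⟩ := hx₀ x hx
  refine le_trans ?_ h4
  have h5 : (oddMultiperfect x).ncard ≤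
      2 ^ K * ((Nat.log 2 x + 1) ^ Nat.primeCounting y * (M + 1)) := by
    rw [Set.ncard_eq_toFinset_card _ (oddMultiperfect_finite x)]
    refine mp_card x y K M h1 h2 ?_ _ ?_
    · intro B hB hBx
      have h6 := sigma_le_log B hB
      have h7 : Real.log B ≤ Real.log x :=
        Real.log_le_log (by exact_mod_cast hB) (by exact_mod_cast hBx)
      have h8 : (sigma 1 B : ℝ) ≤ (M : ℝ) * B := by
        refine h6.trans ?_
        rw [mul_comm]
        exact mul_le_mul_of_nonneg_right (by linarith) (by positivity)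
      exact_mod_cast h8
    · intro B hB
      rw [Set.Finite.mem_toFinset] at hB
      exact ⟨by have := hB.1; omega, hB.2.1, hB.2.2.2⟩
  have h6 : (exceptions x).ncard ≤ (2 * Nat.log 2 x + 1) *
      (2 ^ K * ((Nat.log 2 x + 1) ^ Nat.primeCounting y * (M + 1))) :=
    (upper x).trans (Nat.mul_le_mul (Nat.le_succ _) h5)
  exact_mod_cast h6


end Pool.Agent.Lib.MP_ff748e_nt_FE
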